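import Mathlib

/-!
# The fractional packing coming from the cycles of a random permutation
-/

set_option autoImplicit false

namespace Pool.Agent.R861.AP

open Finset

/-- the weight of every block starting in cell `u` -/
noncomputable def P (k u : ℕ) : ℝ :=
  if u = 0 then 1 / (k : ℝ) else 1 / (((k : ℝ) - u) * ((k : ℝ) - u + 1))

theorem P_nonneg (k u : ℕ) (h : u < k) : 0 ≤ P k u := by
  unfold P
  have : (u : ℝ) < k := by exact_mod_cast h
  split_ifs
  · positivity
  · apply div_nonneg zero_le_one
    apply mul_nonneg <;> linarith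

theorem sum_P (k v : ℕ) (h : v < k) : ∑ u ∈ range (v + 1), P k u = 1 / ((k : ℝ) - v) := by
  induction v with
  | zero => simp [P]
  | succ v ih =>
    rw [Finset.sum_range_succ, ih (by omega)]
    unfold P
    rw [if_neg (by omega)]
    have h1 : ((v + 1 : ℕ) : ℝ) < k := by exact_mod_cast h
    push_cast at h1 ⊢
    have h2 : (k : ℝ) - v ≠ 0 := by intro h; linarith
    have h3 : (k : ℝ) - (v + 1) ≠ 0 := by intro h; linarith
    have h4 : (k : ℝ) - (v + 1) + 1 ≠ 0 := by intro h; linarith
    field_simp
    ring

/-- the sum of the block weights over the last `g` starting cells before `t` -/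
theorem sum_P_last (k t g : ℕ) (h : t < k) :
    (g : ℝ) / (((k : ℝ) - t) * ((k : ℝ) - t + g))
      ≤ ∑ u ∈ (range (t + 1)).filter (fun u => t < u + g), P k u := by
  have hk : (t : ℝ) < k := by exact_mod_cast h
  have hg : (0 : ℝ) ≤ g := Nat.cast_nonneg g
  by_cases htg : t < g
  · have : (range (t + 1)).filter (fun u => t < u + g) = range (t + 1) := by
      apply Finset.filter_true_of_mem
      intro u _
      omega
    rw [this, sum_P k t h]
    rw [div_le_div_iff₀ (by apply mul_pos <;> linarith) (by linarith)]
    nlinarith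
  · push Not at htg
    have h1 := sum_P k t h
    have h2 := sum_P k (t - g) (by omega)
    have h3 : ∑ u ∈ range (t + 1), P k u
        = ∑ u ∈ (range (t + 1)).filter (fun u => t < u + g), P k u
          + ∑ u ∈ (range (t + 1)).filter (fun u => ¬ t < u + g), P k u :=
      (Finset.sum_filter_add_sum_filter_not _ _ _).symm
    have h4 : (range (t + 1)).filter (fun u => ¬ t < u + g) = range (t - g + 1) := by
      ext u
      simp only [Finset.mem_filter, Finset.mem_range]
      omega
    rw [h4, h1, h2] at h3
    rw [Nat.cast_sub htg] at h3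
    have h5 : (k : ℝ) - (t - g) = (k : ℝ) - t + g := by ring
    rw [h5] at h3
    have h6 : (g : ℝ) / (((k : ℝ) - t) * ((k : ℝ) - t + g)) = 1 / ((k : ℝ) - t) - 1 / ((k : ℝ) - t + g) := by
      have h7 : (k : ℝ) - t ≠ 0 := by intro h; linarith
      have h8 : (k : ℝ) - t + g ≠ 0 := by intro h; linarith
      field_simp
      ring
    rw [h6]
    linarith

/-- Load of the blocks of length `> 2 g` at the cell `t`. -/
theorem load_le (k t g : ℕ) (h : t < k) (hg : g ≤ k) :
    ∑ u ∈ range (t + 1), P k u * ((k - u - max (2 * g) (t - u) : ℕ) : ℝ)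
      ≤ 1 - (g : ℝ) ^ 2 / (2 * (k : ℝ) ^ 2) := by
  have hk : (t : ℝ) < k := by exact_mod_cast h
  have hg0 : (0 : ℝ) ≤ g := Nat.cast_nonneg g
  have hgk : (g : ℝ) ≤ k := by exact_mod_cast hg
  have hk0 : (0 : ℝ) < k := by
    have : (0 : ℝ) ≤ t := Nat.cast_nonneg t
    linarith
  set e : ℝ := (k : ℝ) - t with he
  have he0 : 0 < e := by rw [he]; linarith
  have hek : e ≤ k := by
    have : (0 : ℝ) ≤ t := Nat.cast_nonneg t
    rw [he]; linarith
  -- termwise bound
  have hterm : ∀ u ∈ range (t + 1), P k u * ((k - u - max (2 * g) (t - u) : ℕ) : ℝ)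
      ≤ P k u * e - (if t < u + g then P k u * min (g : ℝ) e else 0) := by
    intro u hu
    rw [Finset.mem_range] at hu
    have hP := P_nonneg k u (by omega)
    split_ifs with hc
    · rw [← mul_sub]
      apply mul_le_mul_of_nonneg_left _ hP
      by_cases hge : (g : ℝ) ≤ e
      · rw [min_eq_left hge]
        have h1 : g ≤ k - t := by
          have : (g : ℝ) + t ≤ k := by rw [he] at hge; linarith
          have : g + t ≤ k := by exact_mod_cast this
          omega
        have h2 : k - u - max (2 * g) (t - u) + t + g ≤ k := by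
          have := le_max_left (2 * g) (t - u)
          omega
        have h3 : ((k - u - max (2 * g) (t - u) : ℕ) : ℝ) + t + g ≤ k := by exact_mod_cast h2
        rw [he]; linarith
      · push Not at hge
        rw [min_eq_right hge.le]
        have h1 : k - t ≤ g := by
          have : (k : ℝ) ≤ g + t := by rw [he] at hge; linarith
          have : k ≤ g + t := by exact_mod_cast this
          omega
        have h2 : k - u - max (2 * g) (t - u) = 0 := by
          have := le_max_left (2 * g) (t - u)
          omega
        rw [h2]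
        simp
    · rw [sub_zero]
      apply mul_le_mul_of_nonneg_left _ hP
      have h2 : k - u - max (2 * g) (t - u) + t ≤ k := by
        have := le_max_right (2 * g) (t - u)
        omega
      have h3 : ((k - u - max (2 * g) (t - u) : ℕ) : ℝ) + t ≤ k := by exact_mod_cast h2
      rw [he]; linarith
  refine le_trans (Finset.sum_le_sum hterm) ?_
  rw [Finset.sum_sub_distrib, ← Finset.sum_mul, sum_P k t h, ← Finset.sum_filter, ← Finset.sum_mul]
  rw [← he, one_div, inv_mul_cancel₀ he0.ne']
  have h1 := sum_P_last k t g h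
  rw [← he] at h1
  have hmin : 0 ≤ min (g : ℝ) e := le_min hg0 he0.le
  have h2 := mul_le_mul_of_nonneg_right h1 hmin
  have h3 : (g : ℝ) ^ 2 / (2 * (k : ℝ) ^ 2) ≤ (g : ℝ) / (e * (e + g)) * min (g : ℝ) e := by
    by_cases hge : (g : ℝ) ≤ e
    · rw [min_eq_left hge]
      rw [div_mul_eq_mul_div, div_le_div_iff₀ (by positivity) (by positivity)]
      have : e * (e + g) ≤ 2 * (k : ℝ) ^ 2 := by nlinarith
      have h5 : 0 ≤ (g : ℝ) * g := mul_nonneg hg0 hg0
      nlinarith
    · push Not at hge
      rw [min_eq_right hge.le]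
      have h6 : (g : ℝ) / (e * (e + g)) * e = g / (e + g) := by
        field_simp
      rw [h6, div_le_div_iff₀ (by positivity) (by positivity)]
      have : (g : ℝ) * (e + g) ≤ 2 * k * k := by nlinarith
      nlinarith
  linarith

end Pool.Agent.R861.AP
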