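import Mathlib

/-!
# A small set of residues containing an `n`-term progression of every difference
-/

set_option autoImplicit false

namespace Pool.Agent.R861.AP

open Finset

/-- A Kakeya-type set in `ZMod (Q ^ n)`: it has at most `n * Q ^ (n - 1)` elements and contains an
`n`-term arithmetic progression of every difference. -/
noncomputable def kak (n Q : ℕ) : Finset (ZMod (Q ^ n)) :=
  (Finset.univ : Finset (Fin n)).biUnion (fun j =>
    (Fintype.piFinset (fun i : Fin n => if i = j then ({0} : Finset ℕ) else Finset.range Q)).image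
      (fun f => ∑ i : Fin n, (((j : ℕ) : ZMod (Q ^ n)) - ((i : ℕ) : ZMod (Q ^ n))) *
        ((f i : ℕ) : ZMod (Q ^ n)) * ((Q : ℕ) : ZMod (Q ^ n)) ^ (i : ℕ)))

theorem card_kak (n Q : ℕ) : (kak n Q).card ≤ n * Q ^ (n - 1) := by
  unfold kak
  refine le_trans Finset.card_biUnion_le ?_
  have h : ∀ j ∈ (Finset.univ : Finset (Fin n)),
      ((Fintype.piFinset (fun i : Fin n => if i = j then ({0} : Finset ℕ) else Finset.range Q)).image
      (fun f => ∑ i : Fin n, (((j : ℕ) : ZMod (Q ^ n)) - ((i : ℕ) : ZMod (Q ^ n))) *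
        ((f i : ℕ) : ZMod (Q ^ n)) * ((Q : ℕ) : ZMod (Q ^ n)) ^ (i : ℕ))).card ≤ Q ^ (n - 1) := by
    intro j _
    refine le_trans Finset.card_image_le ?_
    rw [Fintype.card_piFinset]
    have : ∀ i : Fin n, (if i = j then ({0} : Finset ℕ) else Finset.range Q).card
        = if i = j then 1 else Q := by
      intro i
      split_ifs <;> simp
    simp only [this]
    rw [← Finset.mul_prod_erase Finset.univ _ (Finset.mem_univ j)]
    simp only [if_true, one_mul]
    rw [Finset.prod_congr rfl (g := fun _ => Q)]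
    · rw [Finset.prod_const, Finset.card_erase_of_mem (Finset.mem_univ j)]
      simp
    · intro i hi
      rw [if_neg (Finset.ne_of_mem_erase hi)]
  refine le_trans (Finset.sum_le_sum h) ?_
  simp

theorem kak_ap (n Q : ℕ) (hQ : 0 < Q) (d : ZMod (Q ^ n)) :
    ∃ s : ZMod (Q ^ n), ∀ j : ℕ, j < n → s + (j : ZMod (Q ^ n)) * d ∈ kak n Q := by
  haveI : NeZero (Q ^ n) := ⟨(pow_pos hQ n).ne'⟩
  haveI : NeZero Q := ⟨hQ.ne'⟩
  set f : Fin n → Fin Q := finFunctionFinEquiv.symm ⟨d.val, ZMod.val_lt d⟩ with hf
  have hd : d = ∑ i : Fin n, ((f i : ℕ) : ZMod (Q ^ n)) * ((Q : ℕ) : ZMod (Q ^ n)) ^ (i : ℕ) := by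
    have h1 : (finFunctionFinEquiv f : Fin (Q ^ n)).val = d.val := by
      rw [hf, Equiv.apply_symm_apply]
    rw [finFunctionFinEquiv_apply] at h1
    have h2 : ((d.val : ℕ) : ZMod (Q ^ n)) = d := ZMod.natCast_zmod_val d
    rw [← h2, ← h1]
    push_cast
    rfl
  refine ⟨-∑ i : Fin n, ((i : ℕ) : ZMod (Q ^ n)) * ((f i : ℕ) : ZMod (Q ^ n)) *
    ((Q : ℕ) : ZMod (Q ^ n)) ^ (i : ℕ), ?_⟩
  intro j hj
  unfold kak
  rw [Finset.mem_biUnion]
  refine ⟨⟨j, hj⟩, Finset.mem_univ _, ?_⟩
  rw [Finset.mem_image]
  refine ⟨fun i => if i = ⟨j, hj⟩ then 0 else (f i : ℕ), ?_, ?_⟩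
  · rw [Fintype.mem_piFinset]
    intro i
    split_ifs
    · simp
    · simp
  · rw [hd]
    rw [Finset.mul_sum, ← Finset.sum_neg_distrib, ← Finset.sum_add_distrib]
    apply Finset.sum_congr rfl
    intro i _
    by_cases h : i = ⟨j, hj⟩
    · subst h
      simp
      ring
    · simp only [h, if_false]
      push_cast
      ring

/-- counting points of a residue set in an interval -/
theorem count_res (q : ℕ) (hq : 0 < q) (A : Finset (ZMod q)) (a d : ℕ) :
    ((Finset.range d).filter (fun s => ((a + s : ℕ) : ZMod q) ∈ A)).card ≤ A.card * (d / q + 1) := by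
  classical
  haveI : NeZero q := ⟨hq.ne'⟩
  have : ((Finset.range d).filter (fun s => ((a + s : ℕ) : ZMod q) ∈ A)).card
      ≤ (A ×ˢ Finset.range (d / q + 1)).card := by
    apply Finset.card_le_card_of_injOn (fun s => (((a + s : ℕ) : ZMod q), s / q))
    · intro s hs
      simp only [Finset.coe_filter, Finset.mem_range, Set.mem_ofPred_eq] at hs
      simp only [Finset.coe_product, Set.mem_prod, Finset.mem_coe, Finset.mem_range]
      refine ⟨hs.2, ?_⟩
      have := Nat.div_le_div_right (c := q) hs.1.le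
      omega
    · intro s hs t ht h
      simp only [Prod.mk.injEq] at h
      obtain ⟨h1, h2⟩ := h
      rw [ZMod.natCast_eq_natCast_iff] at h1
      have h3 : s ≡ t [MOD q] := Nat.ModEq.add_left_cancel' a h1
      have h4 : s % q = t % q := h3
      rw [← Nat.div_add_mod s q, ← Nat.div_add_mod t q, h2, h4]
  rwa [Finset.card_product, Finset.card_range] at this

/-- many points in a given residue class -/
theorem count_class (q : ℕ) (hq : 0 < q) (r : ZMod q) (k : ℕ) :
    k / q ≤ ((Finset.range k).filter (fun s => ((s : ℕ) : ZMod q) = r)).card := by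
  classical
  haveI : NeZero q := ⟨hq.ne'⟩
  have : (Finset.range (k / q)).card
      ≤ ((Finset.range k).filter (fun s => ((s : ℕ) : ZMod q) = r)).card := by
    apply Finset.card_le_card_of_injOn (fun i => r.val + q * i)
    · intro i hi
      simp only [Finset.coe_range, Set.mem_Iio] at hi
      simp only [Finset.coe_filter, Finset.mem_range, Set.mem_ofPred_eq]
      constructor
      · have h1 := ZMod.val_lt r
        have h2 : q * (k / q) ≤ k := Nat.mul_div_le k q
        have h3 : q * (i + 1) ≤ q * (k / q) := Nat.mul_le_mul_left q hi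
        rw [Nat.mul_add, Nat.mul_one] at h3
        omega
      · push_cast
        simp
    · intro i _ j _ h
      simp only at h
      have : q * i = q * j := by omega
      exact Nat.eq_of_mul_eq_mul_left hq this
  simpa using this

end Pool.Agent.R861.AP
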