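import Pool.Agent.R861.AP.Stage2

/-!
# Packing all differences
-/

set_option autoImplicit false

namespace Pool.Agent.R861.AP

open Finset

/-- greedy placement -/
theorem greedy (n : ℕ) (C : ℕ → Finset ℕ) (T : Finset ℕ)
    (hC : ∀ d ∈ T, n * n * T.card < (C d).card) :
    ∃ s : ℕ → ℕ, (∀ d ∈ T, s d ∈ C d) ∧
      ∀ d ∈ T, ∀ e ∈ T, d ≠ e → ∀ i < n, ∀ j < n, s d + i * d ≠ s e + j * e := by
  classical
  induction T using Finset.induction_on with
  | empty => exact ⟨fun _ => 0, by simp, by simp⟩
  | insert a T ha ih =>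
    have hcard : (insert a T).card = T.card + 1 := Finset.card_insert_of_notMem ha
    obtain ⟨s, hs1, hs2⟩ := ih (fun d hd => by
      have := hC d (Finset.mem_insert_of_mem hd)
      rw [hcard] at this
      have h2 : n * n * T.card ≤ n * n * (T.card + 1) := Nat.mul_le_mul_left _ (Nat.le_succ _)
      omega)
    set B : Finset ℕ := (T ×ˢ (range n ×ˢ range n)).image
      (fun p => s p.1 + p.2.2 * p.1 - p.2.1 * a) with hB
    have hBc : B.card ≤ n * n * T.card := by
      refine le_trans Finset.card_image_le ?_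
      rw [Finset.card_product, Finset.card_product, Finset.card_range]
      linarith [mul_comm T.card (n * n)]
    have hlt : B.card < (C a).card := by
      have := hC a (Finset.mem_insert_self a T)
      rw [hcard] at this
      have h2 : n * n * T.card ≤ n * n * (T.card + 1) := Nat.mul_le_mul_left _ (Nat.le_succ _)
      omega
    obtain ⟨x, hx1, hx2⟩ := Finset.exists_mem_notMem_of_card_lt_card hlt
    have hne : ∀ e ∈ T, ∀ i < n, ∀ j < n, x + i * a ≠ s e + j * e := by
      intro e he i hi j hj h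
      apply hx2
      rw [hB, Finset.mem_image]
      refine ⟨(e, (i, j)), ?_, ?_⟩
      · simp only [Finset.mem_product, Finset.mem_range]
        exact ⟨he, hi, hj⟩
      · simp only
        omega
    refine ⟨Function.update s a x, ?_, ?_⟩
    · intro d hd
      rw [Finset.mem_insert] at hd
      rcases hd with rfl | hd
      · rw [Function.update_self]; exact hx1
      · have : d ≠ a := fun h => ha (h ▸ hd)
        rw [Function.update_of_ne this]; exact hs1 d hd
    · intro d hd e he hde i hi j hj
      rw [Finset.mem_insert] at hd he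
      rcases hd with rfl | hd
      · rcases he with rfl | he
        · exact absurd rfl hde
        · rw [Function.update_self, Function.update_of_ne (Ne.symm hde)]
          exact hne e he i hi j hj
      · have hda : d ≠ a := fun h => ha (h ▸ hd)
        rcases he with rfl | he
        · rw [Function.update_self, Function.update_of_ne hda]
          exact fun h => hne d hd j hj i hi h.symm
        · have hea : e ≠ a := fun h => ha (h ▸ he)
          rw [Function.update_of_ne hda, Function.update_of_ne hea]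
          exact hs2 d hd e he hde i hi j hj

/-- A packing of all progressions with differences `1, …, k` into `[0, m)`. -/
def Packing (n k m : ℕ) (s : ℕ → ℕ) : Prop :=
  (∀ d, 1 ≤ d → d ≤ k → ∀ j < n, s d + j * d < m) ∧
  ∀ d, 1 ≤ d → d ≤ k → ∀ e, 1 ≤ e → e ≤ k → d ≠ e → ∀ i < n, ∀ j < n, s d + i * d ≠ s e + j * e

theorem packing (n : ℕ) (hn : 1 ≤ n) (ε : ℝ) (hε : 0 < ε) :
    ∃ K0 : ℕ, ∀ k ≥ K0, ∃ (m : ℕ) (s : ℕ → ℕ), Packing n k m s ∧ (m : ℝ) ≤ (1 + ε) * (n * k) := by
  classical
  have hn1 : (1 : ℝ) ≤ n := by exact_mod_cast hn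
  -- parameters
  obtain ⟨G0, hG0⟩ := exists_nat_gt (4 * ((n : ℝ) + 1) / ε)
  set G := G0 + 2 with hG
  have hGr : 4 * ((n : ℝ) + 1) ≤ ε * G := by
    rw [div_lt_iff₀ hε] at hG0
    rw [hG]; push_cast
    nlinarith
  set Q := 16 * n ^ 2 * G ^ 2 with hQ
  have hQ0 : 0 < Q := by rw [hQ]; positivity
  set q := Q ^ n with hq
  have hq0 : 0 < q := pow_pos hQ0 n
  have hA : 2 * (n : ℝ) * (kak n Q).card / q ≤ 1 / (8 * (G : ℝ) ^ 2) := by
    have h1 : ((kak n Q).card : ℝ) ≤ n * (Q : ℝ) ^ (n - 1) := by exact_mod_cast card_kak n Q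
    have hq' : (q : ℝ) = Q * (Q : ℝ) ^ (n - 1) := by
      rw [hq]; push_cast
      rw [← pow_succ']
      congr 1; omega
    have hQr : (0 : ℝ) < Q := by exact_mod_cast hQ0
    have hQG : (Q : ℝ) = 16 * (n : ℝ) ^ 2 * (G : ℝ) ^ 2 := by rw [hQ]; push_cast; ring
    have hGpos : (0 : ℝ) < G := by
      have : 0 < G := by omega
      exact_mod_cast this
    rw [div_le_div_iff₀ (by exact_mod_cast hq0) (by positivity), hq']
    have hp : (0 : ℝ) < (Q : ℝ) ^ (n - 1) := by positivity
    calc 2 * (n : ℝ) * (kak n Q).card * (8 * (G : ℝ) ^ 2)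
        ≤ 2 * (n : ℝ) * (n * (Q : ℝ) ^ (n - 1)) * (8 * (G : ℝ) ^ 2) := by
          apply mul_le_mul_of_nonneg_right _ (by positivity)
          apply mul_le_mul_of_nonneg_left h1 (by positivity)
      _ = (16 * (n : ℝ) ^ 2 * (G : ℝ) ^ 2) * (Q : ℝ) ^ (n - 1) := by ring
      _ = 1 * (Q * (Q : ℝ) ^ (n - 1)) := by rw [hQG]; ring
  have hq' : (0 : ℝ) < q := by exact_mod_cast hq0
  set θ : ℝ := 1 / (2 * q * n ^ 2) with hθ
  have hθ0 : 0 < θ := by rw [hθ]; positivity
  obtain ⟨K1, hK1⟩ := stage1 n hn q hq0 (kak n Q) G (by omega) hA θ hθ0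
  obtain ⟨K2, hK2⟩ := exists_nat_gt (2 / ε)
  refine ⟨K1 + K2 + 2 * q + 1, fun k hk => ?_⟩
  obtain ⟨T, s1, hT, h1a, h1b, h1c⟩ := hK1 k (by omega)
  set D := 2 * (k / G) with hD
  -- stage 2
  have hap : ∀ d : ℕ, ∃ r : ZMod q, ∀ j : ℕ, j < n → r + (j : ZMod q) * (d : ZMod q) ∈ kak n Q :=
    fun d => kak_ap n Q hQ0 (d : ZMod q)
  choose r hr using hap
  obtain ⟨s2, h2a, h2b⟩ := greedy n
    (fun d => (range k).filter (fun s => ((s : ℕ) : ZMod q) = r d)) (Ioc D k \ T) (by
      intro d _
      refine lt_of_lt_of_le ?_ (count_class q hq0 (r d) k)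
      have h3 : ((n * n * (Ioc D k \ T).card : ℕ) : ℝ) < ((k / q : ℕ) : ℝ) := by
        push_cast
        have h4 : (n : ℝ) * n * ((Ioc D k \ T).card : ℝ) ≤ n * n * (θ * k) := by
          apply mul_le_mul_of_nonneg_left h1c (by positivity)
        have h5 : (n : ℝ) * n * (θ * k) = k / (2 * q) := by
          rw [hθ]; field_simp
        have h6 : (k : ℝ) / q < ((k / q : ℕ) : ℝ) + 1 := by
          rw [div_lt_iff₀ hq']
          have := Nat.lt_div_mul_add (a := k) hq0
          have h7 : k < (k / q + 1) * q := by linarith [Nat.succ_mul (k / q) q]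
          exact_mod_cast h7
        have h8 : (k : ℝ) / q = k / (2 * q) + k / (2 * q) := by field_simp; ring
        have h9 : (1 : ℝ) < k / (2 * q) := by
          rw [lt_div_iff₀ (by positivity)]
          have : 2 * q < k := by omega
          have : ((2 * q : ℕ) : ℝ) < k := by exact_mod_cast this
          push_cast at this
          linarith
        linarith
      exact_mod_cast h3)
  -- stage 3
  obtain ⟨s3, h3a, h3b⟩ := greedy n
    (fun _ => Ico (n * k) (n * k + (n * n * D + 1))) (Ioc 0 D) (by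
      intro d _
      rw [Nat.card_Ico, Nat.card_Ioc]
      simp)
  -- the total placement
  refine ⟨n * k + (n * n * D + 1) + n * D,
    fun d => if d ≤ D then s3 d else if d ∈ T then s1 d else s2 d, ⟨?_, ?_⟩, ?_⟩
  · intro d hd1 hdk j hj
    simp only
    split_ifs with c1 c2
    · have h := h3a d (Finset.mem_Ioc.mpr ⟨hd1, c1⟩)
      rw [Finset.mem_Ico] at h
      have h5 : j * d ≤ n * D := Nat.mul_le_mul hj.le c1
      omega
    · have := (h1a d c2 j hj).1
      omega
    · have h := h2a d (by
        rw [Finset.mem_sdiff, Finset.mem_Ioc]; exact ⟨⟨by omega, hdk⟩, c2⟩)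
      simp only [Finset.mem_filter, Finset.mem_range] at h
      have h5 : (j + 1) * k ≤ n * k := Nat.mul_le_mul_right k hj
      have h6 : j * d ≤ j * k := Nat.mul_le_mul_left j hdk
      have h7 : (j + 1) * k = j * k + k := Nat.succ_mul j k
      omega
  · -- disjointness: first the facts about the three stages
    have hlarge : ∀ d, 1 ≤ d → d ≤ D → ∀ j, n * k ≤ s3 d + j * d := by
      intro d hd1 c1 j
      have h := h3a d (Finset.mem_Ioc.mpr ⟨hd1, c1⟩)
      rw [Finset.mem_Ico] at h
      omega
    have hsmall2 : ∀ d, D < d → d ≤ k → d ∉ T → ∀ j < n, s2 d + j * d < n * k := by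
      intro d hd1 hdk c2 j hj
      have h := h2a d (by
        rw [Finset.mem_sdiff, Finset.mem_Ioc]; exact ⟨⟨hd1, hdk⟩, c2⟩)
      simp only [Finset.mem_filter, Finset.mem_range] at h
      have h5 : (j + 1) * k ≤ n * k := Nat.mul_le_mul_right k hj
      have h6 : j * d ≤ j * k := Nat.mul_le_mul_left j hdk
      have h7 : (j + 1) * k = j * k + k := Nat.succ_mul j k
      omega
    have hres : ∀ d, D < d → d ≤ k → d ∉ T → ∀ j < n, ((s2 d + j * d : ℕ) : ZMod q) ∈ kak n Q := by
      intro d hd1 hdk c2 j hj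
      have h := h2a d (by
        rw [Finset.mem_sdiff, Finset.mem_Ioc]; exact ⟨⟨hd1, hdk⟩, c2⟩)
      simp only [Finset.mem_filter, Finset.mem_range] at h
      have := hr d j hj
      push_cast
      rw [h.2]
      exact this
    -- auxiliary one-sided statements
    have h32 : ∀ d, 1 ≤ d → d ≤ D → ∀ e, D < e → e ≤ k → ∀ i < n, ∀ j < n,
        s3 d + i * d ≠ (if e ∈ T then s1 e else s2 e) + j * e := by
      intro d hd1 hdD e he1 hek i _ j hj
      have ha := hlarge d hd1 hdD i
      split_ifs with c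
      · have := (h1a e c j hj).1
        omega
      · have := hsmall2 e he1 hek c j hj
        omega
    have h12 : ∀ d, d ∈ T → ∀ e, D < e → e ≤ k → e ∉ T → ∀ i < n, ∀ j < n,
        s1 d + i * d ≠ s2 e + j * e := by
      intro d hdT e he1 hek heT i hi j hj h
      have ha := (h1a d hdT i hi).2
      rw [h] at ha
      exact ha (hres e he1 hek heT j hj)
    intro d hd1 hdk e he1 hek hde i hi j hj
    simp only
    by_cases cd : d ≤ D
    · rw [if_pos cd]
      by_cases ce : e ≤ D
      · rw [if_pos ce]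
        exact h3b d (Finset.mem_Ioc.mpr ⟨hd1, cd⟩) e (Finset.mem_Ioc.mpr ⟨he1, ce⟩) hde i hi j hj
      · rw [if_neg ce]
        exact h32 d hd1 cd e (by omega) hek i hi j hj
    · rw [if_neg cd]
      by_cases ce : e ≤ D
      · rw [if_pos ce]
        exact fun h => h32 e he1 ce d (by omega) hdk j hj i hi h.symm
      · rw [if_neg ce]
        by_cases td : d ∈ T
        · rw [if_pos td]
          by_cases te : e ∈ T
          · rw [if_pos te]
            exact h1b d td e te hde i hi j hj
          · rw [if_neg te]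
            exact h12 d td e (by omega) hek te i hi j hj
        · rw [if_neg td]
          by_cases te : e ∈ T
          · rw [if_pos te]
            exact fun h => h12 e te d (by omega) hdk td j hj i hi h.symm
          · rw [if_neg te]
            exact h2b d (by rw [Finset.mem_sdiff, Finset.mem_Ioc]; exact ⟨⟨by omega, hdk⟩, td⟩)
              e (by rw [Finset.mem_sdiff, Finset.mem_Ioc]; exact ⟨⟨by omega, hek⟩, te⟩) hde i hi j hj
  · push_cast
    have hGpos : (0 : ℝ) < G := by
      have : 0 < G := by omega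
      exact_mod_cast this
    have h1 : (D : ℝ) ≤ 2 * k / G := by
      rw [hD]; push_cast
      have : ((k / G : ℕ) : ℝ) ≤ (k : ℝ) / G := Nat.cast_div_le
      rw [mul_div_assoc]
      linarith
    have hk2 : (2 : ℝ) ≤ ε * k := by
      rw [div_lt_iff₀ hε] at hK2
      have : (K2 : ℝ) ≤ k := by
        have : K2 ≤ k := by omega
        exact_mod_cast this
      nlinarith
    have hk0 : (0 : ℝ) ≤ k := Nat.cast_nonneg k
    have h2 : ((n : ℝ) + 1) * D ≤ ε / 2 * k := by
      have h3 : ((n : ℝ) + 1) * D ≤ (n + 1) * (2 * k / G) := by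
        apply mul_le_mul_of_nonneg_left h1 (by positivity)
      refine le_trans h3 ?_
      rw [← mul_div_assoc, div_le_iff₀ hGpos]
      nlinarith
    have h4 : (n : ℝ) * (((n : ℝ) + 1) * D) ≤ n * (ε / 2 * k) :=
      mul_le_mul_of_nonneg_left h2 (by positivity)
    have h5 : (1 : ℝ) ≤ n * (ε / 2 * k) := by nlinarith
    nlinarith

end Pool.Agent.R861.AP
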