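import Pool.Agent.R861.AP.Kak
import Pool.Agent.R861.AP.Frac
import Pool.Agent.TH437.SP.Nib

/-!
# Packing almost all large differences outside of a small periodic set
-/

set_option autoImplicit false

namespace Pool.Agent.R861.AP

open Finset

/-- triples: difference, cell, offset -/
abbrev Tr := (_ : ℕ) × (_ : ℕ) × ℕ

/-- first term of the progression -/
def st (n : ℕ) (e : Tr) : ℕ := e.2.1 * n + e.2.2

open Classical in
/-- the admissible placements -/
noncomputable def E (n k D q : ℕ) (A : Finset (ZMod q)) : Finset Tr :=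
  (Ioc D k).sigma (fun d => (range (k - d + 1)).sigma (fun u =>
    (range d).filter (fun s => ∀ j < n, ((u * n + s + j * d : ℕ) : ZMod q) ∉ A)))

theorem mem_E {n k D q : ℕ} {A : Finset (ZMod q)} {e : Tr} :
    e ∈ E n k D q A ↔ D < e.1 ∧ e.1 ≤ k ∧ e.2.1 + e.1 ≤ k ∧ e.2.2 < e.1 ∧
      ∀ j < n, ((st n e + j * e.1 : ℕ) : ZMod q) ∉ A := by
  unfold E st
  simp only [Finset.mem_sigma, Finset.mem_Ioc, Finset.mem_range, Finset.mem_filter]
  constructor
  · rintro ⟨⟨h1, h2⟩, h3, h4, h5⟩
    exact ⟨h1, h2, by omega, h4, h5⟩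
  · rintro ⟨h1, h2, h3, h4, h5⟩
    exact ⟨⟨h1, h2⟩, by omega, h4, h5⟩

open Classical in
/-- total block weight of the admissible placements of the difference `d` -/
noncomputable def W (n k q : ℕ) (A : Finset (ZMod q)) (d : ℕ) : ℝ :=
  ∑ u ∈ range (k - d + 1), P k u *
    (((range d).filter (fun s => ∀ j < n, ((u * n + s + j * d : ℕ) : ZMod q) ∉ A)).card : ℝ)

/-- weight of a placement -/
noncomputable def om (n k q : ℕ) (A : Finset (ZMod q)) (d u : ℕ) : ℝ := P k u / W n k q A d

theorem W_ge (n k q : ℕ) (hq : 0 < q) (A : Finset (ZMod q)) (d : ℕ) (hd : q ≤ d) (hdk : d ≤ k) :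
    1 - 2 * (n : ℝ) * A.card / q ≤ W n k q A d := by
  classical
  have hd0 : 0 < d := lt_of_lt_of_le hq hd
  have hcount : ∀ u, (d : ℝ) - n * (A.card * (2 * d / q)) ≤
      (((range d).filter (fun s => ∀ j < n, ((u * n + s + j * d : ℕ) : ZMod q) ∉ A)).card : ℝ) := by
    intro u
    have h1 : ((range d).filter (fun s => ¬ ∀ j < n, ((u * n + s + j * d : ℕ) : ZMod q) ∉ A)).card
        ≤ n * (A.card * (d / q + 1)) := by
      have hsub : (range d).filter (fun s => ¬ ∀ j < n, ((u * n + s + j * d : ℕ) : ZMod q) ∉ A)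
          ⊆ (range n).biUnion (fun j => (range d).filter
              (fun s => (((u * n + j * d) + s : ℕ) : ZMod q) ∈ A)) := by
        intro s hs
        simp only [Finset.mem_filter, Finset.mem_range] at hs
        obtain ⟨hs1, hs2⟩ := hs
        push Not at hs2
        obtain ⟨j, hj, hj2⟩ := hs2
        rw [Finset.mem_biUnion]
        refine ⟨j, Finset.mem_range.mpr hj, ?_⟩
        rw [Finset.mem_filter]
        refine ⟨Finset.mem_range.mpr hs1, ?_⟩
        have : u * n + j * d + s = u * n + s + j * d := by ring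
        rw [this]
        exact hj2
      refine le_trans (Finset.card_le_card hsub) ?_
      refine le_trans Finset.card_biUnion_le ?_
      refine le_trans (Finset.sum_le_sum (fun j _ => count_res q hq A (u * n + j * d) d)) ?_
      simp
    have h2 := Finset.card_filter_add_card_filter_not (s := range d)
      (fun s => ∀ j < n, ((u * n + s + j * d : ℕ) : ZMod q) ∉ A)
    rw [Finset.card_range] at h2
    have h3 : (((d / q : ℕ) : ℝ) + 1) ≤ 2 * d / q := by
      have h4 : ((d / q : ℕ) : ℝ) ≤ (d : ℝ) / q := Nat.cast_div_le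
      have hq' : (0 : ℝ) < q := by exact_mod_cast hq
      have h5 : (1 : ℝ) ≤ (d : ℝ) / q := by
        rw [le_div_iff₀ hq']
        have : (q : ℝ) ≤ d := by exact_mod_cast hd
        linarith
      have h6 : 2 * (d : ℝ) / q = d / q + d / q := by ring
      rw [h6]; linarith
    have h5 : (((range d).filter (fun s => ¬ ∀ j < n, ((u * n + s + j * d : ℕ) : ZMod q) ∉ A)).card : ℝ)
        ≤ n * (A.card * (((d / q : ℕ) : ℝ) + 1)) := by exact_mod_cast h1
    have h6 : (((range d).filter (fun s => ∀ j < n, ((u * n + s + j * d : ℕ) : ZMod q) ∉ A)).card : ℝ)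
        + (((range d).filter (fun s => ¬ ∀ j < n, ((u * n + s + j * d : ℕ) : ZMod q) ∉ A)).card : ℝ)
        = d := by exact_mod_cast h2
    have h7 : (n : ℝ) * (A.card * (((d / q : ℕ) : ℝ) + 1)) ≤ n * (A.card * (2 * d / q)) := by
      apply mul_le_mul_of_nonneg_left _ (Nat.cast_nonneg n)
      apply mul_le_mul_of_nonneg_left h3 (Nat.cast_nonneg _)
    linarith
  have hP : ∑ u ∈ range (k - d + 1), P k u = 1 / (d : ℝ) := by
    rw [sum_P k (k - d) (by omega), Nat.cast_sub hdk]
    congr 1
    ring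
  have hd' : (0 : ℝ) < d := by exact_mod_cast hd0
  have hq' : (0 : ℝ) < q := by exact_mod_cast hq
  calc 1 - 2 * (n : ℝ) * A.card / q = ∑ u ∈ range (k - d + 1), P k u * ((d : ℝ) - n * (A.card * (2 * d / q))) := by
        rw [← Finset.sum_mul, hP]
        field_simp
    _ ≤ W n k q A d := by
        unfold W
        apply Finset.sum_le_sum
        intro u hu
        rw [Finset.mem_range] at hu
        apply mul_le_mul_of_nonneg_left (hcount u) (P_nonneg k u (by omega))

/-- the weights of the placements of one difference add up to one -/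
theorem sum_om (n k D q : ℕ) (A : Finset (ZMod q)) (hW : ∀ d ∈ Ioc D k, 0 < W n k q A d) :
    ∑ e ∈ E n k D q A, om n k q A e.1 e.2.1 = ((Ioc D k).card : ℝ) := by
  unfold E
  rw [Finset.sum_sigma]
  have : ∀ d ∈ Ioc D k, (∑ e ∈ (range (k - d + 1)).sigma (fun u =>
    (range d).filter (fun s => ∀ j < n, ((u * n + s + j * d : ℕ) : ZMod q) ∉ A)), om n k q A d e.1) = 1 := by
    intro d hd
    rw [Finset.sum_sigma]
    simp only [Finset.sum_const, nsmul_eq_mul]
    unfold om
    have h : ∀ u ∈ range (k - d + 1), (((range d).filter (fun s => ∀ j < n, ((u * n + s + j * d : ℕ) : ZMod q) ∉ A)).card : ℝ) * (P k u / W n k q A d)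
      = (P k u * (((range d).filter (fun s => ∀ j < n, ((u * n + s + j * d : ℕ) : ZMod q) ∉ A)).card : ℝ)) / W n k q A d := by
      intro u _
      ring
    rw [Finset.sum_congr rfl h, ← Finset.sum_div]
    have h2 := hW d hd
    rw [div_eq_one_iff_eq h2.ne']
    unfold W
    rfl
  rw [Finset.sum_congr rfl this]
  simp

/-- sums over placements which are determined by difference and cell -/
theorem sum_inj (E' : Finset Tr) (F : Finset (ℕ × ℕ))
    (hinj : ∀ e ∈ E', ∀ f ∈ E', e.1 = f.1 → e.2.1 = f.2.1 → e.2.2 = f.2.2)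
    (hsub : ∀ e ∈ E', (e.1, e.2.1) ∈ F) (w : ℕ → ℕ → ℝ) (hw : ∀ p ∈ F, 0 ≤ w p.1 p.2) :
    ∑ e ∈ E', w e.1 e.2.1 ≤ ∑ p ∈ F, w p.1 p.2 := by
  classical
  have h1 : Set.InjOn (fun e : Tr => ((e.1, e.2.1) : ℕ × ℕ)) (E' : Set Tr) := by
    intro e he f hf h
    simp only [Prod.mk.injEq] at h
    have := hinj e he f hf h.1 h.2
    obtain ⟨a, b, c⟩ := e
    obtain ⟨a', b', c'⟩ := f
    simp only at h this
    obtain ⟨h1, h2⟩ := h
    subst h1 h2 this
    rfl
  have h2 : ∑ e ∈ E', w e.1 e.2.1 = ∑ p ∈ E'.image (fun e : Tr => ((e.1, e.2.1) : ℕ × ℕ)), w p.1 p.2 := by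
    rw [Finset.sum_image h1]
  rw [h2]
  apply Finset.sum_le_sum_of_subset_of_nonneg
  · intro p hp
    rw [Finset.mem_image] at hp
    obtain ⟨e, he, rfl⟩ := hp
    exact hsub e he
  · intro p hp _
    exact hw p hp

/-- for a given point, difference and cell there is at most one placement through the point -/
theorem offset_unique (n : ℕ) (e f : Tr) (x : ℕ) (h1 : e.1 = f.1) (h2 : e.2.1 = f.2.1)
    (h3 : e.2.2 < e.1) (h4 : f.2.2 < f.1) (i j : ℕ) (hi : st n e + i * e.1 = x)
    (hj : st n f + j * f.1 = x) : e.2.2 = f.2.2 := by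
  unfold st at hi hj
  rw [← h1] at h4 hj
  rw [← h2] at hj
  have h5 : e.2.2 + i * e.1 = f.2.2 + j * e.1 := by omega
  have h6 : (e.2.2 + i * e.1) % e.1 = (f.2.2 + j * e.1) % e.1 := by rw [h5]
  rwa [Nat.add_mul_mod_self_right, Nat.add_mul_mod_self_right, Nat.mod_eq_of_lt h3,
    Nat.mod_eq_of_lt h4] at h6

/-- all placements of one difference through one point -/
theorem sum_point (n k D q : ℕ) (A : Finset (ZMod q)) (hW : ∀ d ∈ Ioc D k, 1 / 2 ≤ W n k q A d)
    (hD : 0 < D) (E' : Finset Tr) (hE : E' ⊆ E n k D q A) (d x : ℕ)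
    (h : ∀ e ∈ E', e.1 = d ∧ ∃ j, st n e + j * e.1 = x) :
    ∑ e ∈ E', om n k q A e.1 e.2.1 ≤ 2 / D := by
  classical
  rcases E'.eq_empty_or_nonempty with rfl | ⟨e0, he0⟩
  · rw [Finset.sum_empty]
    positivity
  · have hd : d ∈ Ioc D k := by
      have h1 := mem_E.mp (hE he0)
      rw [Finset.mem_Ioc, ← (h e0 he0).1]
      exact ⟨h1.1, h1.2.1⟩
    have hd' := Finset.mem_Ioc.mp hd
    have hWd := hW d hd
    have h1 : ∑ e ∈ E', om n k q A e.1 e.2.1 ≤ ∑ p ∈ ({d} : Finset ℕ) ×ˢ range (k - d + 1),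
        om n k q A p.1 p.2 := by
      apply sum_inj
      · intro e he f hf ha hb
        obtain ⟨_, i, hi⟩ := h e he
        obtain ⟨_, j, hj⟩ := h f hf
        exact offset_unique n e f x ha hb (mem_E.mp (hE he)).2.2.2.1 (mem_E.mp (hE hf)).2.2.2.1 i j hi hj
      · intro e he
        rw [Finset.mem_product]
        simp only [Finset.mem_singleton, Finset.mem_range]
        have h2 := mem_E.mp (hE he)
        have h3 := (h e he).1
        refine ⟨h3, ?_⟩
        omega
      · intro p hp
        rw [Finset.mem_product, Finset.mem_singleton, Finset.mem_range] at hp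
        unfold om
        rw [hp.1]
        apply div_nonneg (P_nonneg k _ (by omega)) (by linarith)
    refine le_trans h1 ?_
    rw [Finset.sum_product, Finset.sum_singleton]
    unfold om
    simp only
    rw [← Finset.sum_div, sum_P k (k - d) (by omega), Nat.cast_sub hd'.2]
    have h4 : (k : ℝ) - (k - d) = d := by ring
    rw [h4]
    have h5 : (0 : ℝ) < D := by exact_mod_cast hD
    have h6 : (D : ℝ) ≤ d := by exact_mod_cast hd'.1.le
    have h7 : (0 : ℝ) < d := by linarith
    rw [div_div, div_le_div_iff₀ (by nlinarith) h5]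
    nlinarith

/-- the load of a point -/
theorem load_point (n k g q : ℕ) (hn : 0 < n) (hg : g ≤ k) (A : Finset (ZMod q)) (lam : ℝ)
    (hl : lam < 1) (hl2 : lam ≤ (g : ℝ) ^ 2 / (2 * (k : ℝ) ^ 2))
    (hW : ∀ d ∈ Ioc (2 * g) k, 1 - lam ≤ W n k q A d)
    (E' : Finset Tr) (hE : E' ⊆ E n k (2 * g) q A) (x : ℕ)
    (h : ∀ e ∈ E', ∃ j < n, st n e + j * e.1 = x) :
    ∑ e ∈ E', om n k q A e.1 e.2.1 ≤ 1 := by
  classical
  rcases E'.eq_empty_or_nonempty with rfl | ⟨e0, he0⟩
  · simp
  · have hcell : ∀ e ∈ E', e.2.1 ≤ x / n ∧ x / n < e.2.1 + e.1 := by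
      intro e he
      obtain ⟨j, hj, hx⟩ := h e he
      have h1 := mem_E.mp (hE he)
      unfold st at hx
      constructor
      · rw [Nat.le_div_iff_mul_le hn]
        omega
      · rw [Nat.div_lt_iff_lt_mul hn]
        have h2 : j * e.1 + e.1 ≤ n * e.1 := by
          have : (j + 1) * e.1 ≤ n * e.1 := Nat.mul_le_mul_right _ hj
          linarith [this, Nat.succ_mul j e.1]
        have h3 := h1.2.2.2.1
        calc x = e.2.1 * n + e.2.2 + j * e.1 := hx.symm
          _ < e.2.1 * n + e.1 + j * e.1 := by omega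
          _ ≤ e.2.1 * n + n * e.1 := by omega
          _ = (e.2.1 + e.1) * n := by ring
    set t := x / n with ht
    have htk : t < k := by
      have h1 := hcell e0 he0
      have h2 := (mem_E.mp (hE he0)).2.2.1
      omega
    set F : Finset (ℕ × ℕ) := ((Ioc (2 * g) k) ×ˢ (range (t + 1))).filter
      (fun p => p.2 + p.1 ≤ k ∧ t < p.2 + p.1) with hF
    have h1 : ∑ e ∈ E', om n k q A e.1 e.2.1 ≤ ∑ p ∈ F, om n k q A p.1 p.2 := by
      apply sum_inj
      · intro e he f hf ha hb
        obtain ⟨i, _, hi⟩ := h e he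
        obtain ⟨j, _, hj⟩ := h f hf
        exact offset_unique n e f x ha hb (mem_E.mp (hE he)).2.2.2.1 (mem_E.mp (hE hf)).2.2.2.1 i j hi hj
      · intro e he
        rw [hF, Finset.mem_filter, Finset.mem_product]
        simp only [Finset.mem_Ioc, Finset.mem_range]
        have h2 := mem_E.mp (hE he)
        have h3 := hcell e he
        refine ⟨⟨⟨h2.1, h2.2.1⟩, by omega⟩, h2.2.2.1, h3.2⟩
      · intro p hp
        rw [hF, Finset.mem_filter, Finset.mem_product] at hp
        have h4 := hW p.1 hp.1.1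
        rw [Finset.mem_range] at hp
        unfold om
        apply div_nonneg (P_nonneg k _ (by omega)) (by linarith)
    have h2 : ∑ p ∈ F, om n k q A p.1 p.2 ≤ ∑ p ∈ F, P k p.2 / (1 - lam) := by
      apply Finset.sum_le_sum
      intro p hp
      rw [hF, Finset.mem_filter, Finset.mem_product] at hp
      have h4 := hW p.1 hp.1.1
      rw [Finset.mem_range] at hp
      unfold om
      apply div_le_div_of_nonneg_left (P_nonneg k _ (by omega)) (by linarith) h4
    have h3 : ∑ p ∈ F, P k p.2 = ∑ u ∈ range (t + 1), P k u * ((k - u - max (2 * g) (t - u) : ℕ) : ℝ) := by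
      rw [hF, Finset.sum_filter, Finset.sum_product_right]
      apply Finset.sum_congr rfl
      intro u hu
      rw [Finset.mem_range] at hu
      simp only
      rw [← Finset.sum_filter, Finset.sum_const, nsmul_eq_mul, mul_comm]
      congr 2
      have : (Ioc (2 * g) k).filter (fun d => u + d ≤ k ∧ t < u + d)
          = Ioc (max (2 * g) (t - u)) (k - u) := by
        ext d
        simp only [Finset.mem_filter, Finset.mem_Ioc, max_lt_iff]
        omega
      rw [this, Nat.card_Ioc]
    have h5 := load_le k t g htk hg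
    rw [← Finset.sum_div, h3] at h2
    refine le_trans h1 (le_trans h2 ?_)
    rw [div_le_one (by linarith)]
    linarith

end Pool.Agent.R861.AP
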