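import Pool.Agent.R861.AP.Stage1

/-!
# The nibble step
-/

set_option autoImplicit false

namespace Pool.Agent.R861.AP

open Finset

/-- the hyperedge of a placement: its difference and its points -/
def hed (n : ℕ) (e : Tr) : Finset (ℕ ⊕ ℕ) :=
  insert (Sum.inl e.1) ((range n).image (fun j => Sum.inr (st n e + j * e.1)))

theorem inl_mem_hed (n : ℕ) (e : Tr) (d : ℕ) : Sum.inl d ∈ hed n e ↔ d = e.1 := by
  unfold hed
  simp

theorem inr_mem_hed (n : ℕ) (e : Tr) (x : ℕ) : Sum.inr x ∈ hed n e ↔ ∃ j < n, st n e + j * e.1 = x := by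
  unfold hed
  simp

theorem sum_biUnion_le' {ι α : Type} [DecidableEq ι] [DecidableEq α] (S : Finset ι) (t : ι → Finset α)
    (f : α → ℝ) (hf : ∀ i ∈ S, ∀ a ∈ t i, 0 ≤ f a) :
    ∑ a ∈ S.biUnion t, f a ≤ ∑ i ∈ S, ∑ a ∈ t i, f a := by
  induction S using Finset.induction_on with
  | empty => simp
  | insert i S hi ih =>
    rw [Finset.biUnion_insert, Finset.sum_insert hi]
    have h1 := Finset.sum_union_inter (s₁ := t i) (s₂ := S.biUnion t) (f := f)
    have h2 := ih (fun j hj a ha => hf j (Finset.mem_insert_of_mem hj) a ha)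
    have h3 : 0 ≤ ∑ a ∈ t i ∩ S.biUnion t, f a := by
      apply Finset.sum_nonneg
      intro a ha
      exact hf i (Finset.mem_insert_self i S) a (Finset.mem_inter.mp ha).1
    linarith

theorem stage1 (n : ℕ) (hn : 1 ≤ n) (q : ℕ) (hq : 0 < q) (A : Finset (ZMod q)) (G : ℕ) (hG : 2 ≤ G)
    (hA : 2 * (n : ℝ) * A.card / q ≤ 1 / (8 * (G : ℝ) ^ 2)) (θ : ℝ) (hθ : 0 < θ) :
    ∃ K0 : ℕ, ∀ k ≥ K0, ∃ (T : Finset ℕ) (s : ℕ → ℕ), T ⊆ Ioc (2 * (k / G)) k ∧
      (∀ d ∈ T, ∀ j < n, s d + j * d < n * k ∧ ((s d + j * d : ℕ) : ZMod q) ∉ A) ∧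
      (∀ d ∈ T, ∀ e ∈ T, d ≠ e → ∀ i < n, ∀ j < n, s d + i * d ≠ s e + j * e) ∧
      ((Ioc (2 * (k / G)) k \ T).card : ℝ) ≤ θ * k := by
  classical
  obtain ⟨κ, hκ, hnib⟩ := Pool.Agent.TH437.SP.nibble_T (n + 1) θ hθ
  obtain ⟨N, hN⟩ := exists_nat_gt (2 * (n : ℝ) ^ 2 / κ)
  refine ⟨G * (q + N + 1), fun k hk => ?_⟩
  set g := k / G with hgdef
  have hG0 : 0 < G := by omega
  have hg1 : q + N + 1 ≤ g := by
    rw [hgdef, Nat.le_div_iff_mul_le hG0]
    linarith [mul_comm G (q + N + 1)]
  have hgk : g * G ≤ k := Nat.div_mul_le_self k G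
  have hkG : k < (g + 1) * G := by
    have := Nat.lt_div_mul_add (a := k) hG0
    rw [← hgdef] at this
    linarith [Nat.succ_mul g G]
  have hgk' : g ≤ k := by nlinarith
  have hk0 : 0 < k := by omega
  set D := 2 * g with hD
  have hD0 : 0 < D := by omega
  set lam : ℝ := 1 / (8 * (G : ℝ) ^ 2) with hlam
  have hGr : (2 : ℝ) ≤ G := by exact_mod_cast hG
  have hlam1 : lam ≤ 1 / 2 := by
    rw [hlam]
    apply div_le_div_of_nonneg_left (by norm_num) (by norm_num)
    nlinarith
  have hlam2 : lam ≤ (g : ℝ) ^ 2 / (2 * (k : ℝ) ^ 2) := by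
    rw [hlam, div_le_div_iff₀ (by positivity) (by positivity)]
    have h1 : (k : ℝ) ≤ 2 * g * G := by
      have h2 : k ≤ 2 * g * G := by nlinarith
      exact_mod_cast h2
    have h3 : (k : ℝ) ^ 2 ≤ (2 * g * G) ^ 2 := by
      apply pow_le_pow_left₀ (Nat.cast_nonneg k) h1
    nlinarith
  have hWl : ∀ d ∈ Ioc D k, 1 - lam ≤ W n k q A d := by
    intro d hd
    rw [Finset.mem_Ioc] at hd
    have := W_ge n k q hq A d (by omega) hd.2
    linarith
  have hW2 : ∀ d ∈ Ioc D k, 1 / 2 ≤ W n k q A d := fun d hd => by
    have := hWl d hd; linarith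
  have hκD : (n : ℝ) ^ 2 * (2 / D) ≤ κ := by
    have h1 : (N : ℝ) < D := by
      have : N < D := by omega
      exact_mod_cast this
    have hD' : (0 : ℝ) < D := by exact_mod_cast hD0
    rw [div_lt_iff₀ hκ] at hN
    rw [← mul_div_assoc, div_le_iff₀ hD']
    nlinarith
  have hn1 : (1 : ℝ) ≤ n := by exact_mod_cast hn
  have h2D : (2 : ℝ) / D ≤ κ := by
    have h1 : (0 : ℝ) ≤ 2 / D := by positivity
    have h2 : (1 : ℝ) ≤ (n : ℝ) ^ 2 := one_le_pow₀ hn1
    have h3 := mul_le_mul_of_nonneg_right h2 h1
    linarith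
  -- nonnegative weights
  have homnn : ∀ e ∈ E n k D q A, 0 ≤ om n k q A e.1 e.2.1 := by
    intro e he
    have h1 := mem_E.mp he
    unfold om
    apply div_nonneg (P_nonneg k _ (by omega))
    have := hW2 e.1 (by rw [Finset.mem_Ioc]; exact ⟨h1.1, h1.2.1⟩)
    linarith
  -- sums over the subtype
  have hconv : ∀ (p : Tr → Prop) (i1 : DecidablePred (fun e : E n k D q A => p e.1))
      (i2 : DecidablePred p),
      ∑ e ∈ @Finset.filter _ (fun e => p e.1) i1 (univ : Finset (E n k D q A)),
      om n k q A e.1.1 e.1.2.1 = ∑ e ∈ @Finset.filter _ p i2 (E n k D q A), om n k q A e.1 e.2.1 := by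
    intro p i1 i2
    rw [Finset.sum_filter, Finset.sum_filter]
    rw [← Finset.sum_coe_sort (E n k D q A) (fun e => if p e then om n k q A e.1 e.2.1 else 0)]
    apply Finset.sum_congr rfl
    intro e _
    by_cases h : p e.1
    · rw [if_pos h, if_pos h]
    · rw [if_neg h, if_neg h]
  obtain ⟨M, hM1, _, hM3⟩ := hnib (E n k D q A) (ℕ ⊕ ℕ) (fun e => hed n e.1)
    (fun e => om n k q A e.1.1 e.1.2.1)
    (fun e => homnn e.1 e.2)
    (fun e => ⟨Sum.inl e.1.1, by rw [inl_mem_hed]⟩)
    (by
      intro e
      unfold hed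
      refine le_trans (Finset.card_insert_le _ _) ?_
      have := Finset.card_image_le (s := range n) (f := fun j => (Sum.inr (st n e.1 + j * e.1.1) : ℕ ⊕ ℕ))
      rw [Finset.card_range] at this
      omega)
    (by
      intro v
      suffices hsuf : ∑ e ∈ (E n k D q A).filter (fun e => v ∈ hed n e), om n k q A e.1 e.2.1 ≤ 1 by
        exact le_trans (le_of_eq (hconv (fun e => v ∈ hed n e) _ _)) hsuf
      rcases v with d | x
      · -- a difference
        by_cases hd : d ∈ Ioc D k
        · have h1 : ∑ e ∈ (E n k D q A).filter (fun e => Sum.inl d ∈ hed n e), om n k q A e.1 e.2.1 = 1 := by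
            have h2 : (E n k D q A).filter (fun e => Sum.inl d ∈ hed n e)
                = ({d} : Finset ℕ).sigma (fun d => (range (k - d + 1)).sigma (fun u =>
                  (range d).filter (fun s => ∀ j < n, ((u * n + s + j * d : ℕ) : ZMod q) ∉ A))) := by
              ext e
              rw [Finset.mem_filter, inl_mem_hed]
              unfold E
              simp only [Finset.mem_sigma, Finset.mem_singleton]
              constructor
              · rintro ⟨⟨h3, h4⟩, h5⟩
                exact ⟨h5.symm, h4⟩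
              · rintro ⟨h3, h4⟩
                exact ⟨⟨h3 ▸ hd, h4⟩, h3.symm⟩
            rw [h2, Finset.sum_sigma, Finset.sum_singleton, Finset.sum_sigma]
            simp only [Finset.sum_const, nsmul_eq_mul]
            unfold om
            have h : ∀ u ∈ range (k - d + 1), (((range d).filter (fun s => ∀ j < n, ((u * n + s + j * d : ℕ) : ZMod q) ∉ A)).card : ℝ) * (P k u / W n k q A d)
              = (P k u * (((range d).filter (fun s => ∀ j < n, ((u * n + s + j * d : ℕ) : ZMod q) ∉ A)).card : ℝ)) / W n k q A d := by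
              intro u _
              ring
            rw [Finset.sum_congr rfl h, ← Finset.sum_div]
            have h2 := hW2 d hd
            rw [div_eq_one_iff_eq (by linarith)]
            unfold W
            rfl
          exact h1.le
        · rw [Finset.filter_false_of_mem, Finset.sum_empty]
          · exact zero_le_one
          · intro e he h
            rw [inl_mem_hed] at h
            have h1 := mem_E.mp he
            apply hd
            rw [Finset.mem_Ioc, h]
            exact ⟨h1.1, h1.2.1⟩
      · apply load_point n k g q (by omega) hgk' A lam (by linarith) hlam2 hWl _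
          (Finset.filter_subset _ _) x
        intro e he
        rw [Finset.mem_filter, inr_mem_hed] at he
        exact he.2)
    (by
      intro u v huv
      suffices hsuf : ∑ e ∈ (E n k D q A).filter (fun e => u ∈ hed n e ∧ v ∈ hed n e),
          om n k q A e.1 e.2.1 ≤ κ by
        exact le_trans (le_of_eq (hconv (fun e => u ∈ hed n e ∧ v ∈ hed n e) _ _)) hsuf
      rcases u with d | x <;> rcases v with d' | y
      · rw [Finset.filter_false_of_mem, Finset.sum_empty]
        · exact hκ.le
        · rintro e _ ⟨h1, h2⟩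
          rw [inl_mem_hed] at h1 h2
          exact huv (by rw [h1, h2])
      · refine le_trans (sum_point n k D q A hW2 hD0 _ (Finset.filter_subset _ _) d y ?_) h2D
        intro e he
        rw [Finset.mem_filter, inl_mem_hed, inr_mem_hed] at he
        obtain ⟨_, h1, j, _, h2⟩ := he
        exact ⟨h1.symm, j, h2⟩
      · refine le_trans (sum_point n k D q A hW2 hD0 _ (Finset.filter_subset _ _) d' x ?_) h2D
        intro e he
        rw [Finset.mem_filter, inl_mem_hed, inr_mem_hed] at he
        obtain ⟨_, ⟨j, _, h2⟩, h1⟩ := he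
        exact ⟨h1.symm, j, h2⟩
      · have hxy : x ≠ y := fun h => huv (by rw [h])
        have hsub : (E n k D q A).filter (fun e => Sum.inr x ∈ hed n e ∧ Sum.inr y ∈ hed n e)
            ⊆ ((range n) ×ˢ (range n)).biUnion (fun p => (E n k D q A).filter
              (fun e => st n e + p.1 * e.1 = x ∧ st n e + p.2 * e.1 = y)) := by
          intro e he
          rw [Finset.mem_filter, inr_mem_hed, inr_mem_hed] at he
          obtain ⟨h1, ⟨i, hi, hx⟩, j, hj, hy⟩ := he
          rw [Finset.mem_biUnion]
          refine ⟨(i, j), ?_, ?_⟩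
          · rw [Finset.mem_product, Finset.mem_range, Finset.mem_range]
            exact ⟨hi, hj⟩
          · rw [Finset.mem_filter]
            exact ⟨h1, hx, hy⟩
        refine le_trans (Finset.sum_le_sum_of_subset_of_nonneg hsub ?_) ?_
        · intro e he _
          rw [Finset.mem_biUnion] at he
          obtain ⟨p, _, hp⟩ := he
          exact homnn e (Finset.mem_filter.mp hp).1
        · refine le_trans (sum_biUnion_le' _ _ _ ?_) ?_
          · intro p _ e he
            exact homnn e (Finset.mem_filter.mp he).1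
          · have hone : ∀ p ∈ (range n) ×ˢ (range n), ∑ e ∈ (E n k D q A).filter
                (fun e => st n e + p.1 * e.1 = x ∧ st n e + p.2 * e.1 = y), om n k q A e.1 e.2.1 ≤ 2 / D := by
              intro p _
              rcases ((E n k D q A).filter
                (fun e => st n e + p.1 * e.1 = x ∧ st n e + p.2 * e.1 = y)).eq_empty_or_nonempty with h0 | ⟨e0, he0⟩
              · rw [h0, Finset.sum_empty]; positivity
              · apply sum_point n k D q A hW2 hD0 _ (Finset.filter_subset _ _) e0.1 x
                intro e he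
                rw [Finset.mem_filter] at he he0
                refine ⟨?_, p.1, he.2.1⟩
                obtain ⟨_, a1, a2⟩ := he
                obtain ⟨_, b1, b2⟩ := he0
                have c1 : ((p.1 : ℤ) - p.2) * e.1 = (x : ℤ) - y := by
                  have a1' : ((st n e : ℤ) + p.1 * e.1) = x := by exact_mod_cast a1
                  have a2' : ((st n e : ℤ) + p.2 * e.1) = y := by exact_mod_cast a2
                  rw [← a1', ← a2']; ring
                have c2 : ((p.1 : ℤ) - p.2) * e0.1 = (x : ℤ) - y := by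
                  have a1' : ((st n e0 : ℤ) + p.1 * e0.1) = x := by exact_mod_cast b1
                  have a2' : ((st n e0 : ℤ) + p.2 * e0.1) = y := by exact_mod_cast b2
                  rw [← a1', ← a2']; ring
                have c3 : ((p.1 : ℤ) - p.2) ≠ 0 := by
                  intro h
                  rw [h, zero_mul] at c1
                  apply hxy
                  have : (x : ℤ) = y := by linarith
                  exact_mod_cast this
                have c4 := mul_left_cancel₀ c3 (c1.trans c2.symm)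
                exact_mod_cast c4
            refine le_trans (Finset.sum_le_sum hone) ?_
            rw [Finset.sum_const, Finset.card_product, Finset.card_range, nsmul_eq_mul]
            push_cast
            nlinarith [hκD])
    (by
      intro e
      have h1 : om n k q A e.1.1 e.1.2.1 = ∑ f ∈ ({e.1} : Finset Tr), om n k q A f.1 f.2.1 := by
        rw [Finset.sum_singleton]
      rw [h1]
      refine le_trans (sum_point n k D q A hW2 hD0 {e.1} ?_ e.1.1 (st n e.1) ?_) h2D
      · intro f hf
        rw [Finset.mem_singleton] at hf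
        rw [hf]; exact e.2
      · intro f hf
        rw [Finset.mem_singleton] at hf
        rw [hf]
        exact ⟨rfl, 0, by simp⟩)
  -- extract the packing
  have hdist : ∀ e ∈ M, ∀ f ∈ M, e.1.1 = f.1.1 → e = f := by
    intro e he f hf h
    by_contra hne
    have h1 := hM1 e he f hf hne
    rw [Finset.disjoint_left] at h1
    exact h1 (a := Sum.inl e.1.1) (by rw [inl_mem_hed]) (by rw [inl_mem_hed]; exact h)
  set T : Finset ℕ := M.image (fun e => e.1.1) with hT
  have hTc : T.card = M.card := by
    rw [hT]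
    apply Finset.card_image_of_injOn
    intro e he f hf h
    exact hdist e he f hf h
  have hex : ∀ d ∈ T, ∃ e ∈ M, e.1.1 = d := by
    intro d hd
    rw [hT, Finset.mem_image] at hd
    exact hd
  let s : ℕ → ℕ := fun d => if h : ∃ e ∈ M, e.1.1 = d then st n (Classical.choose h).1 else 0
  have hs : ∀ d ∈ T, ∃ e ∈ M, e.1.1 = d ∧ s d = st n e.1 := by
    intro d hd
    have h := hex d hd
    refine ⟨Classical.choose h, (Classical.choose_spec h).1, (Classical.choose_spec h).2, ?_⟩
    simp only [s]
    rw [dif_pos h]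
  have hTsub : T ⊆ Ioc D k := by
    intro d hd
    obtain ⟨e, _, he, _⟩ := hs d hd
    have h1 := mem_E.mp e.2
    rw [Finset.mem_Ioc, ← he]
    exact ⟨h1.1, h1.2.1⟩
  refine ⟨T, s, hTsub, ?_, ?_, ?_⟩
  · intro d hd j hj
    obtain ⟨e, _, he, hse⟩ := hs d hd
    have h1 := mem_E.mp e.2
    rw [hse, ← he]
    refine ⟨?_, h1.2.2.2.2 j hj⟩
    unfold st
    have h2 : j * e.1.1 + e.1.1 ≤ n * e.1.1 := by
      have : (j + 1) * e.1.1 ≤ n * e.1.1 := Nat.mul_le_mul_right _ hj
      linarith [this, Nat.succ_mul j e.1.1]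
    have h3 := h1.2.2.2.1
    calc e.1.2.1 * n + e.1.2.2 + j * e.1.1 < e.1.2.1 * n + e.1.1 + j * e.1.1 := by omega
      _ ≤ e.1.2.1 * n + n * e.1.1 := by omega
      _ = n * (e.1.2.1 + e.1.1) := by ring
      _ ≤ n * k := Nat.mul_le_mul_left n h1.2.2.1
  · intro d hd d' hd' hne i hi j hj heq
    obtain ⟨e, he0, he, hse⟩ := hs d hd
    obtain ⟨f, hf0, hf, hsf⟩ := hs d' hd'
    have hef : e ≠ f := by
      intro h
      apply hne
      rw [← he, ← hf, h]
    have h1 := hM1 e he0 f hf0 hef
    rw [Finset.disjoint_left] at h1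
    apply h1 (a := Sum.inr (s d + i * d))
    · rw [inr_mem_hed]
      exact ⟨i, hi, by rw [hse, he]⟩
    · rw [inr_mem_hed]
      exact ⟨j, hj, by rw [heq, hsf, hf]⟩
  · have h1 : ∑ e : E n k D q A, om n k q A e.1.1 e.1.2.1 = ((Ioc D k).card : ℝ) := by
      have h2 := Finset.sum_coe_sort (E n k D q A) (fun e => om n k q A e.1 e.2.1)
      rw [h2]
      apply sum_om
      intro d hd
      have := hW2 d hd
      linarith
    rw [h1] at hM3
    rw [Finset.card_sdiff_of_subset hTsub, Nat.cast_sub (Finset.card_le_card hTsub), hTc]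
    have h3 : ((Ioc D k).card : ℝ) ≤ k := by
      rw [Nat.card_Ioc]
      have : k - D ≤ k := Nat.sub_le _ _
      exact_mod_cast this
    nlinarith

end Pool.Agent.R861.AP
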